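import Mathlib
import Pool.Agent.H890R2.Sol.Geo

set_option autoImplicit false
open Set
open scoped ContDiff Manifold
open Pool.Agent.Helper107.LC

/-!
# A closed Lorentzian 3-manifold without closed geodesics

The manifold is the quotient of the Lie group `Sol = ℝ² ⋊ ℝ` (coordinates `(x, y, t)`) by the
lattice `ℤ[φ] ⋊ ℤ`, and the metric is the left invariant metric `2 e^{-t} dx dt + e^{2t} dy²`, a
homogeneous plane wave. The definitions `LorentzMetric` and `LorentzMetric.IsGeodesic` are in
`Pool.Agent.Helper107.LC.MDefs`; `R m = EuclideanSpace ℝ (Fin (m + 1))`.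
-/

namespace Pool.Agent.Results.MP_aba202_gt.NoClosedGeodesic

/-- `c : ℝ → M` has period `L > 0`, is injective on a period (so it induces an injective map of the
circle `ℝ / Lℤ` to `M`) and satisfies `∇_{c'} c' = 0` everywhere. Every smoothly embedded circle
satisfying the geodesic equation gives such a `c`. -/
def IsClosedGeodesic {m : ℕ} {M : Type*} [TopologicalSpace M] [ChartedSpace (R m) M]
    (g : LorentzMetric m M) (L : ℝ) (c : ℝ → M) : Prop :=
  0 < L ∧ (∀ s, c (s + L) = c s) ∧ InjOn c (Ico 0 L) ∧ g.IsGeodesic c univ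

/-- There are a closed connected smooth 3-manifold `M` and a smooth Lorentzian metric `g` on `M`
for which every periodic geodesic is constant; in particular `(M, g)` has no closed geodesic. -/
theorem result : ∃ (M : Type) (_ : TopologicalSpace M) (_ : ChartedSpace (R 2) M),
    IsManifold (𝓡 3) ∞ M ∧ T2Space M ∧ CompactSpace M ∧ ConnectedSpace M ∧
    ∃ g : LorentzMetric 2 M,
      (∀ (c : ℝ → M) (L : ℝ), 0 < L → (∀ s, c (s + L) = c s) → g.IsGeodesic c univ →
        ∀ s s', c s = c s') ∧
      ¬ ∃ (L : ℝ) (c : ℝ → M), IsClosedGeodesic g L c := by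
  refine ⟨Pool.Agent.H890R2.Sol.SolM, inferInstance, inferInstance, inferInstance, inferInstance,
    inferInstance, inferInstance, Pool.Agent.H890R2.Sol.solMetric,
    Pool.Agent.H890R2.Sol.no_periodic, ?_⟩
  rintro ⟨L, c, hL, hc, hi, hg⟩
  have h := Pool.Agent.H890R2.Sol.no_periodic c L hL hc hg 0 (L / 2)
  have h2 := hi ⟨le_rfl, hL⟩ ⟨by positivity, by linarith⟩ h
  linarith

end Pool.Agent.Results.MP_aba202_gt.NoClosedGeodesic
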